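import Pool.Agent.H90.EH.Targets

/-! AB1: nonnegativity (MP_e3a811_co). -/

set_option autoImplicit false
set_option linter.unusedSectionVars false

namespace Pool.Agent.H18.HST

open Finset
open scoped Classical
open Pool.Agent.H90.EH

theorem le_mul_nonneg {f g : PowerSeries ℤ} (hf : Le 0 f) (hg : Le 0 g) : Le 0 (f * g) := by
  intro m
  rw [PowerSeries.coeff_mul, map_zero]
  refine Finset.sum_nonneg fun x _ => mul_nonneg ?_ ?_
  · simpa using hf x.1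
  · simpa using hg x.2

theorem le_mul_right {f g h : PowerSeries ℤ} (hfg : Le f g) (hh : Le 0 h) :
    Le (f * h) (g * h) := by
  intro m
  rw [PowerSeries.coeff_mul, PowerSeries.coeff_mul]
  refine Finset.sum_le_sum fun x _ => mul_le_mul_of_nonneg_right (hfg x.1) ?_
  simpa using hh x.2

theorem le_mul_left {f g h : PowerSeries ℤ} (hfg : Le f g) (hh : Le 0 h) :
    Le (h * f) (h * g) := by
  rw [mul_comm h f, mul_comm h g]
  exact le_mul_right hfg hh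

theorem le_trans' {f g h : PowerSeries ℤ} (h1 : Le f g) (h2 : Le g h) : Le f h :=
  fun m => (h1 m).trans (h2 m)

theorem le_one : Le 0 (1 : PowerSeries ℤ) := by
  intro m
  rw [PowerSeries.coeff_one, map_zero]
  split_ifs <;> norm_num

theorem le_pow {f : PowerSeries ℤ} (hf : Le 0 f) (k : ℕ) : Le 0 (f ^ k) := by
  induction k with
  | zero => rw [pow_zero]; exact le_one
  | succ k ih => rw [pow_succ]; exact le_mul_nonneg ih hf

theorem le_Ph (p : ℕ) : Le 0 (Ph p) := by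
  intro m
  unfold Ph
  rw [map_zero, map_sum]
  refine Finset.sum_nonneg fun i _ => ?_
  rw [PowerSeries.coeff_X_pow]
  split_ifs <;> norm_num

section

variable {ι : Type} [Fintype ι] [DecidableEq ι]

theorem Lm_mul (M N : Matrix ι ι ℤ) : Lm (M * N) = Lm M * Lm N := by
  unfold Lm
  have h : (M * N).map (fun z : ℤ => (z : ℚ)) =
      M.map (fun z : ℤ => (z : ℚ)) * N.map (fun z : ℤ => (z : ℚ)) := by
    have := Matrix.map_mul (L := M) (M := N) (f := Int.castRingHom ℚ)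
    exact this
  rw [h, Matrix.toLin'_mul]
  rfl

theorem Lm_one : Lm (1 : Matrix ι ι ℤ) = 1 := by
  unfold Lm
  have h : (1 : Matrix ι ι ℤ).map (fun z : ℤ => (z : ℚ)) = 1 :=
    Matrix.map_one _ (by simp) (by simp)
  rw [h, Matrix.toLin'_one]
  rfl

theorem Lm_pow (M : Matrix ι ι ℤ) (k : ℕ) : Lm (M ^ k) = Lm M ^ k := by
  induction k with
  | zero => rw [pow_zero, pow_zero, Lm_one]
  | succ k ih => rw [pow_succ, pow_succ, Lm_mul, ih]

theorem pow_fix {V : Type} [AddCommGroup V] [Module ℚ V] (ψ : V →ₗ[ℚ] V) (x : V) (h : ψ x = x)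
    (k : ℕ) : (ψ ^ k) x = x := by
  induction k with
  | zero => rfl
  | succ k ih => rw [pow_succ, Module.End.mul_apply, h, ih]

theorem inv_pow {ht : (ι → ℚ) →ₗ[ℚ] ℚ} {M : Matrix ι ι ℤ} {p r : ℕ} {A : ℕ → Finset (ι → ℚ)}
    (S : Sys ht M p r A) (k : ℕ) : ∀ x ∈ Cone (A r), Lm (M ^ k) x ∈ Cone (A r) := by
  induction k with
  | zero =>
    intro x hx
    rw [pow_zero, Lm_one]
    exact hx
  | succ k ih =>
    intro x hx
    rw [pow_succ, Lm_mul, Module.End.mul_apply]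
    exact ih _ (S.inv x hx)

theorem sp_fix {ht : (ι → ℚ) →ₗ[ℚ] ℚ} {M : Matrix ι ι ℤ} {p r : ℕ} {A : ℕ → Finset (ι → ℚ)}
    (S : Sys ht M p r A) (h4 : T_FIX) (s : ℕ) (hs : s ≤ r) (x : ι → ℚ) :
    x ∈ Sp (A s) ↔ Lm (M ^ p ^ s) x = x := by
  have key := h4 (ι → ℚ) (Lm (M ^ p ^ s)) (A r) (A s) (p ^ r) (Nat.one_le_pow _ _ S.prime.pos)
    (inv_pow S _) (fun a _ => by
      rw [← Lm_pow, ← pow_mul, mul_comm, pow_mul, S.order, one_pow, Lm_one]
      rfl) (S.fix s hs) x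
  rw [key, S.top]
  simp

theorem rk_eq {ht : (ι → ℚ) →ₗ[ℚ] ℚ} {M : Matrix ι ι ℤ} {p r : ℕ} {A : ℕ → Finset (ι → ℚ)}
    (S : Sys ht M p r A) (h4 : T_FIX) (s : ℕ) (hs : s ≤ r) :
    rk (A s) = Module.finrank ℚ (LinearMap.ker (Lm (M ^ p ^ s) - 1)) := by
  have h : Sp (A s) = LinearMap.ker (Lm (M ^ p ^ s) - 1) := by
    ext x
    rw [sp_fix S h4 s hs x, LinearMap.mem_ker, LinearMap.sub_apply, sub_eq_zero]
    rfl
  unfold rk
  rw [h]

theorem th_eq {ht : (ι → ℚ) →ₗ[ℚ] ℚ} {M : Matrix ι ι ℤ} {p r : ℕ} {A : ℕ → Finset (ι → ℚ)}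
    (S : Sys ht M p r A) (h4 : T_FIX) (n : ℕ → ℕ)
    (hn : ∀ s, s ≤ r → (M ^ p ^ s).charpolyRev = (1 - Polynomial.X) ^ es p n s * Dp p r n s ∧
      Module.finrank ℚ (LinearMap.ker (Lm (M ^ p ^ s) - 1)) = es p n s)
    (s : ℕ) (hs' : s ≤ r) : rk (A s) = es p n s ∧
    th ht (M ^ p ^ s) (A s) = hs (ZL ι) ht (A s) * (Dp p r n s : PowerSeries ℤ) := by
  have h1 : rk (A s) = es p n s := by rw [rk_eq S h4 s hs', (hn s hs').2]
  refine ⟨h1, ?_⟩
  unfold th hs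
  rw [(hn s hs').1, h1, Polynomial.coe_mul, Polynomial.coe_pow, Polynomial.coe_sub,
    Polynomial.coe_one, Polynomial.coe_X]
  ring

end

theorem pf_AB1 (h1 : T_CYC) (h2 : T_PIN) (h3 : T_POS) (h4 : T_FIX) : T_AB1 := by
  intro ι _ _ ht M p r A S
  obtain ⟨n, hn⟩ := h1 ι M p r S.prime S.order
  rw [(th_eq S h4 n hn 0 (Nat.zero_le r)).2]
  exact le_mul_nonneg (h3 _ _ _ _ (S.fin 0 (Nat.zero_le r))) ((h2 p r n S.prime).1 0)

end Pool.Agent.H18.HST
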