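import Pool.Agent.H18.HST.AB1

/-! AB2: monotonicity (MP_e3a811_co). -/

set_option autoImplicit false
set_option linter.unusedSectionVars false

namespace Pool.Agent.H18.HST

open Finset
open scoped Classical
open Pool.Agent.H90.EH

section

variable {ι : Type} [Fintype ι] [DecidableEq ι]

theorem Lm_ZL (M : Matrix ι ι ℤ) : ∀ x ∈ ZL ι, Lm M x ∈ ZL ι := by
  intro x hx i
  choose z hz using hx
  refine ⟨∑ j, M i j * z j, ?_⟩
  unfold Lm
  rw [Matrix.toLin'_apply, Matrix.mulVec, dotProduct]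
  push_cast
  refine Finset.sum_congr rfl fun j _ => ?_
  rw [Matrix.map_apply, hz j]

theorem ht_pow {ht : (ι → ℚ) →ₗ[ℚ] ℚ} {M : Matrix ι ι ℤ} {p r : ℕ} {A : ℕ → Finset (ι → ℚ)}
    (S : Sys ht M p r A) (k : ℕ) : ∀ x, ht (Lm (M ^ k) x) = ht x := by
  induction k with
  | zero =>
    intro x
    rw [pow_zero, Lm_one]
    rfl
  | succ k ih =>
    intro x
    rw [pow_succ, Lm_mul, Module.End.mul_apply, ih, S.height]

end

theorem pf_AB2 (h1 : T_CYC) (h2 : T_PIN) (h3 : T_POS) (h4 : T_FIX) (h5 : T_KIG) : T_AB2 := by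
  intro ι _ _ ht M p r A S s hsr
  obtain ⟨n, hn⟩ := h1 ι M p r S.prime S.order
  obtain ⟨e1, t1⟩ := th_eq S h4 n hn s hsr.le
  obtain ⟨e2, t2⟩ := th_eq S h4 n hn (s + 1) hsr
  have hpow : Lm (M ^ p ^ s) ^ p = Lm (M ^ p ^ (s + 1)) := by
    rw [← Lm_pow, ← pow_mul, ← pow_succ]
  obtain ⟨k, hk, hle⟩ := h5 (ι → ℚ) (ZL ι) ht (Lm (M ^ p ^ s)) (A (s + 1)) (A s) p S.prime
    (S.fin (s + 1) hsr) (S.fin s hsr.le).1 (Lm_ZL _) (ht_pow S _)
    (fun a ha => by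
      rw [hpow]
      exact ((S.fix (s + 1) hsr a).1 (cone_mem ha)).2)
    (fun x hx => by
      obtain ⟨hx1, hx2⟩ := (S.fix (s + 1) hsr x).1 hx
      refine (S.fix (s + 1) hsr _).2 ⟨inv_pow S _ x hx1, ?_⟩
      have hc : Lm (M ^ p ^ (s + 1)) (Lm (M ^ p ^ s) x) = Lm (M ^ p ^ s) (Lm (M ^ p ^ (s + 1)) x) := by
        rw [← Module.End.mul_apply, ← Module.End.mul_apply, ← Lm_mul, ← Lm_mul, ← pow_add,
          ← pow_add, add_comm]
      rw [hc, hx2])
    (fun x => by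
      constructor
      · intro hx
        obtain ⟨hx1, hx2⟩ := (S.fix s hsr.le x).1 hx
        refine ⟨(S.fix (s + 1) hsr x).2 ⟨hx1, ?_⟩, hx2⟩
        rw [← hpow]
        exact pow_fix _ x hx2 p
      · rintro ⟨hx1, hx2⟩
        exact (S.fix s hsr.le x).2 ⟨((S.fix (s + 1) hsr x).1 hx1).1, hx2⟩)
  have hes : es p n (s + 1) = es p n s + n (s + 1) * (p ^ s * (p - 1)) := by
    unfold es
    rw [Finset.sum_range_succ _ (s + 1), Nat.totient_prime_pow_succ S.prime]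
  have hk' : k = p ^ s * n (s + 1) := by
    rw [e1, e2, hes] at hk
    have h6 : n (s + 1) * (p ^ s * (p - 1)) = k * (p - 1) := by omega
    have h7 : 0 < p - 1 := Nat.sub_pos_of_lt S.prime.one_lt
    have h8 : k * (p - 1) = (p ^ s * n (s + 1)) * (p - 1) := by rw [← h6]; ring
    exact Nat.eq_of_mul_eq_mul_right h7 h8
  obtain ⟨E, hE0, hE1, hE2⟩ := (h2 p r n S.prime).2 s hsr
  rw [t1, t2, hE1, ← hk', ← mul_assoc]
  exact le_trans' (le_mul_left hE2 (le_mul_nonneg (h3 _ _ _ _ (S.fin s hsr.le)) (le_pow (le_Ph p) k)))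
    (le_mul_right hle ((h2 p r n S.prime).1 (s + 1)))

end Pool.Agent.H18.HST
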